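import Pool.Agent.Lib.MP_6fc7a0_al.HgMain

set_option autoImplicit false

namespace Pool.Agent.Results.MP_6fc7a0_al.IndependentBasisFinite

open Pool.Agent.Lib.MP_6fc7a0_al.Hg

universe u v

theorem result (G : Type u) [Group G] [Finite G] (S : Set QId)
    (hb : IsBasis.{u, v} G S) (hi : Indep.{v} S) : S.Finite :=
  main G S hb hi

end Pool.Agent.Results.MP_6fc7a0_al.IndependentBasisFinite
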